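import Mathlib
import Pool.Agent.Lib.helper6.EigRank

set_option autoImplicit false

namespace Pool.Agent.Results.MP_17c227_co.RookPetersen

/-- adjacency rows of the disjoint union of the `4 × 4` rook graph and the Petersen graph -/
def row (x : Fin 26) : ℕ :=
  [4382, 8749, 17483, 34951, 4577, 8914, 17588, 34936, 7697, 11554, 19268, 34696, 57617, 53794, 46148, 30856, 58720256, 39845888, 22020096, 11534336, 34340864, 17432576, 8781824, 4784128, 2424832, 1245184].getD x.val 0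

def adj (x y : Fin 26) : Bool := (row x).testBit y.val

theorem adj_symm : ∀ x y, adj x y = true → adj y x = true := by decide +kernel

theorem adj_irrefl : ∀ x, ¬ adj x x = true := by decide +kernel

def G : SimpleGraph (Fin 26) where
  Adj x y := adj x y = true
  symm := ⟨adj_symm⟩
  loopless := ⟨adj_irrefl⟩

instance : DecidableRel G.Adj := fun x y => inferInstanceAs (Decidable (adj x y = true))

def M (x y : Fin 26) : ℤ := (if adj x y = true then 1 else 0) + (if x = y then 2 else 0)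

def piv (k : Fin 13) : Fin 26 := ([0, 1, 2, 3, 4, 8, 12, 16, 17, 18, 19, 20, 21] : List (Fin 26)).getD k.val 0

def C (k : Fin 13) (y : Fin 26) : ℤ :=
  (([[2, 0, 0, 0, 0, -2, -2, -2, 0, -2, -2, -2, 0, -2, -2, -2, 0, 0, 0, 0, 0, 0, 0, 0, 0, 0], [0, 2, 0, 0, 0, 2, 0, 0, 0, 2, 0, 0, 0, 2, 0, 0, 0, 0, 0, 0, 0, 0, 0, 0, 0, 0], [0, 0, 2, 0, 0, 0, 2, 0, 0, 0, 2, 0, 0, 0, 2, 0, 0, 0, 0, 0, 0, 0, 0, 0, 0, 0], [0, 0, 0, 2, 0, 0, 0, 2, 0, 0, 0, 2, 0, 0, 0, 2, 0, 0, 0, 0, 0, 0, 0, 0, 0, 0], [0, 0, 0, 0, 2, 2, 2, 2, 0, 0, 0, 0, 0, 0, 0, 0, 0, 0, 0, 0, 0, 0, 0, 0, 0, 0], [0, 0, 0, 0, 0, 0, 0, 0, 2, 2, 2, 2, 0, 0, 0, 0, 0, 0, 0, 0, 0, 0, 0, 0, 0, 0], [0, 0, 0, 0, 0, 0, 0, 0, 0, 0, 0, 0, 2, 2, 2, 2, 0, 0, 0, 0, 0, 0, 0, 0, 0, 0], [0, 0, 0, 0, 0, 0, 0, 0, 0, 0, 0, 0, 0, 0, 0, 0, 2, 0, 0, 0, 0, 0, 0, 1, 1, 1], [0, 0, 0, 0, 0, 0, 0, 0, 0, 0, 0, 0, 0, 0, 0, 0, 0, 2, 0, 0, 0,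 0, 2, 1, -1, 1], [0, 0, 0, 0, 0, 0, 0, 0, 0, 0, 0, 0, 0, 0, 0, 0, 0, 0, 2, 0, 0, 0, 2, 1, 1, -1], [0, 0, 0, 0, 0, 0, 0, 0, 0, 0, 0, 0, 0, 0, 0, 0, 0, 0, 0, 2, 0, 0, 2, 3, -1, -1], [0, 0, 0, 0, 0, 0, 0, 0, 0, 0, 0, 0, 0, 0, 0, 0, 0, 0, 0, 0, 2, 0, -2, -2, 0, 2], [0, 0, 0, 0, 0, 0, 0, 0, 0, 0, 0, 0, 0, 0, 0, 0, 0, 0, 0, 0, 0, 2, -2, -2, 2, 0]] : List (List ℤ)).getD k.val []).getD y.val 0

theorem fac : ∀ x y, 2 * M x y = ∑ k, M x (piv k) * C k y := by decide +kernel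

theorem edges : G.edgeSet.ncard = 63 := by
  have h := G.sum_degrees_eq_twice_card_edges
  have h2 : ∑ v, G.degree v = 126 := by decide +kernel
  rw [← SimpleGraph.coe_edgeFinset, Set.ncard_coe_finset]
  omega

theorem rank_le : (G.adjMatrix ℝ - (-2 : ℝ) • (1 : Matrix (Fin 26) (Fin 26) ℝ)).rank ≤ 13 := by
  have h : G.adjMatrix ℝ - (-2 : ℝ) • (1 : Matrix (Fin 26) (Fin 26) ℝ)
      = (Matrix.of fun x (k : Fin 13) => (M x (piv k) : ℝ))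
        * (Matrix.of fun (k : Fin 13) y => (C k y : ℝ) / 2) := by
    ext x y
    have h1 : (2 : ℝ) * (M x y : ℝ) = ∑ k, (M x (piv k) : ℝ) * (C k y : ℝ) := by
      exact_mod_cast fac x y
    have h2 : (G.adjMatrix ℝ - (-2 : ℝ) • (1 : Matrix (Fin 26) (Fin 26) ℝ)) x y = (M x y : ℝ) := by
      simp only [Matrix.sub_apply, SimpleGraph.adjMatrix_apply, Matrix.smul_apply, Matrix.one_apply,
        M, G]
      split_ifs <;> norm_num
    rw [h2, Matrix.mul_apply]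
    simp only [Matrix.of_apply, ← mul_div_assoc, ← Finset.sum_div]
    rw [← h1]
    ring
  rw [h]
  exact (Matrix.rank_mul_le_left _ _).trans (Matrix.rank_le_width _)

/-- A graph of average degree at most `d ≥ 2` with a median eigenvalue of absolute value larger than
`√(d - 1)`; `eigenvalues₀` lists the eigenvalues in decreasing order, starting at index `0`. -/
theorem result : ∃ (d : ℝ) (n : ℕ) (G : SimpleGraph (Fin n)) (_ : DecidableRel G.Adj),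
    2 ≤ d ∧ 1 ≤ n ∧ 2 * (G.edgeSet.ncard : ℝ) / n ≤ d ∧
    ∃ i : Fin (Fintype.card (Fin n)),
      (i.val + 1 = ⌊((n : ℝ) + 1) / 2⌋₊ ∨ i.val + 1 = ⌈((n : ℝ) + 1) / 2⌉₊) ∧
      √(d - 1) < |(G.isHermitian_adjMatrix ℝ).eigenvalues₀ i| := by
  refine ⟨63 / 13, 26, G, inferInstance, by norm_num, by norm_num, ?_,
    ⟨13, by simp⟩, Or.inr ?_, ?_⟩
  · rw [edges]; norm_num
  · symm
    rw [Nat.ceil_eq_iff (by norm_num)]
    norm_num
  · have h := Pool.Agent.Lib.helper6.eigenvalues₀_le_of_rank (G.isHermitian_adjMatrix ℝ) (-2)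
      ⟨13, by simp⟩ rank_le
    have h2 : √(63 / 13 - 1) < 2 := by
      rw [Real.sqrt_lt' (by norm_num)]
      norm_num
    exact h2.trans_le (le_abs.mpr (Or.inr (by linarith)))

end Pool.Agent.Results.MP_17c227_co.RookPetersen
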